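import Mathlib
import Pool.Agent.Lib.MP_ec19ea_al.Main

set_option autoImplicit false

namespace Pool.Agent.Results.MP_ec19ea_al.SmallDegree

open Pool.Agent.Lib.MP_ec19ea_al

/-- Let `χ` be an irreducible character of degree prime to `p` and conductor `p^a m`, `p ∤ m`.
If `χ(1) ≤ φ(p^max(a,2))/2`, or if every element of a Sylow `p`-subgroup `P` has minimal
polynomial of degree at most `φ(p^max(a,2))/2`, then `Q_{p^a} ⊆ Q_p(χ_P)` and
`[Q_{p^a} : Q_{p^a} ∩ Q(χ)]` is not divisible by `p`. -/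
theorem result (G : Type) [Group G] [Finite G] (V : Type) [AddCommGroup V] [Module ℂ V]
    [FiniteDimensional ℂ V] (ρ : Representation ℂ G V) [ρ.IsIrreducible]
    (p : ℕ) [Fact p.Prime] (hd : ¬ p ∣ Module.finrank ℂ V) (a m : ℕ) (hm : ¬ p ∣ m)
    (hc : conductor (valField ρ.character Set.univ) = p ^ a * m) (P : Sylow p G)
    (hs : 2 * Module.finrank ℂ V ≤ (p ^ max a 2).totient ∨
      ∀ u ∈ P, 2 * (minpoly ℂ (ρ u)).natDegree ≤ (p ^ max a 2).totient) :
    cyc (p ^ a) ≤ cyc p ⊔ valField ρ.character P ∧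
      ¬ p ∣ (valField ρ.character Set.univ).relfinrank (cyc (p ^ a)) :=
  main ρ p hd a m hm hc P hs

end Pool.Agent.Results.MP_ec19ea_al.SmallDegree
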