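import Mathlib
import Pool.Agent.Lib.MP_ec19ea_al.TwH

set_option autoImplicit false

namespace Pool.Agent.Results.MP_ec19ea_al.SylowSeries

open Pool.Agent.Lib.MP_ec19ea_al

/-- Let `p` be an odd prime and `χ` an irreducible character of `G` of degree prime to `p` and
conductor `p^a m`, `p ∤ m`. If `G` has a subnormal series in each factor of which every element
lying in two different Sylow `p`-subgroups `P`, `P'` has order dividing `p^(a-1)` or is central
in `P`, then `[Q_{p^a} : Q_{p^a} ∩ Q(χ)]` is not divisible by `p`. -/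
theorem result (p : ℕ) [Fact p.Prime] (hp : p ≠ 2) (G : Type) [Group G] [Finite G]
    (V : Type) [AddCommGroup V] [Module ℂ V] [FiniteDimensional ℂ V] (ρ : Representation ℂ G V)
    [ρ.IsIrreducible] (hd : ¬ p ∣ Module.finrank ℂ V) (a m : ℕ) (hm : ¬ p ∣ m)
    (hc : conductor (valField ρ.character Set.univ) = p ^ a * m)
    (n : ℕ) (H : Fin (n + 1) → Subgroup G) (h0 : H 0 = ⊥) (hn : H (Fin.last n) = ⊤)
    (hs : ∀ i : Fin n, H i.castSucc ≤ H i.succ ∧
      ∃ _ : ((H i.castSucc).subgroupOf (H i.succ)).Normal,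
        SylowCond p (a - 1) (H i.succ ⧸ (H i.castSucc).subgroupOf (H i.succ))) :
    ¬ p ∣ (valField ρ.character Set.univ).relfinrank (cyc (p ^ a)) :=
  Tw.series hp H h0 hn hs ρ hd hm hc

end Pool.Agent.Results.MP_ec19ea_al.SylowSeries
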